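import Pool.Agent.Lib.MP_c0f49b.Proof

/-!
# MP_c0f49b_an: common hypercyclic vectors along the graph of the Takagi function
-/

set_option autoImplicit false

namespace Pool.Agent.Results.MP_c0f49b_an.TakagiGraph

open Pool.Agent.Lib.MP_c0f49b

/-- **Common hypercyclic vectors along the graph of the Takagi function.** For all `a, b > 0`
the family `(e^x B × e^y B)`, `(x, y) ∈ Γ_{a,b}`, on `c₀(ℕ) × c₀(ℕ)` (real or complex scalars)
has a common hypercyclic vector. -/
theorem result (𝕜 : Type*) [RCLike 𝕜] (a b : ℝ) (ha : 0 < a) (hb : 0 < b) :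
    (⋂ z ∈ takagiGraph a b, HC (rolewiczProd 𝕜 z.1 z.2)).Nonempty :=
  main 𝕜 a b ha hb

end Pool.Agent.Results.MP_c0f49b_an.TakagiGraph
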